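import Pool.Agent.helper61.DP.SpecA

/-!
# Loops separate (project dp, part A): LH, LN
-/

namespace DP

/-- The parity of the number of crossings of the half line above `z` by a closed path is constant
along connected sets which avoid the path. -/
theorem LH_par (hUV : UV_stmt) (hUH : UH_stmt) {l : List V} {u₀ : V} (h1 : l.head? = some u₀)
    (h2 : l.getLast? = some u₀) (h3 : l.IsChain Adj) {W : Set V} (hW : ∀ z ∈ W, z ∉ l) {u v : V}
    (h : Con W u v) : upCross u l % 2 = upCross v l % 2 := by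
  have key : ∀ a b : V, a ∉ l → b ∉ l → Adj a b → b.1 = a.1 + 1 →
      upCross a l % 2 = upCross b l % 2 := by
    intro a b ha hb hab hc
    have := hUH l u₀ u₀ a b h1 h2 h3 hab hc ha hb
    omega
  have keyv : ∀ a b : V, a ∉ l → b ∉ l → b.1 = a.1 → b.2 = a.2 + 1 →
      upCross a l % 2 = upCross b l % 2 := by
    intro a b ha hb hc hd
    rw [hUV l a b hc hd hb]
  refine h.induct' (fun z => upCross u l % 2 = upCross z l % 2) rfl fun a b ha hb hab hP => ?_
  refine hP.trans ?_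
  have hab' := hab
  rw [adj_iff] at hab'
  obtain ⟨⟨h4, h5, h6, h7⟩, h8, h9⟩ := hab'
  by_cases h10 : b.1 = a.1 + 1
  · exact key a b (hW a ha) (hW b hb) hab h10
  · by_cases h11 : a.1 = b.1 + 1
    · exact (key b a (hW b hb) (hW a ha) hab.symm h11).symm
    · have h12 : a.1 = b.1 := by omega
      by_cases h13 : b.2 = a.2 + 1
      · exact keyv a b (hW a ha) (hW b hb) h12.symm h13
      · exact (keyv b a (hW b hb) (hW a ha) h12 (by
          have : ¬ a.2 = b.2 := fun h => h8 ⟨h12, h⟩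
          omega)).symm

/-- No step crosses if no site of the list is in the column of `v` above `v`. -/
theorem LH_zero {l : List V} {v : V} (h : ∀ w ∈ l, w.1 = v.1 → w.2 ≤ v.2) : upCross v l = 0 := by
  unfold upCross
  rw [List.length_eq_zero_iff, List.filter_eq_nil_iff]
  intro p hp
  have h1 : p.1 ∈ l := (List.of_mem_zip hp).1
  have h2 : p.2 ∈ l := List.mem_of_mem_tail (List.of_mem_zip hp).2
  have h3 := h _ h1
  have h4 := h _ h2
  simp only [Bool.or_eq_true, decide_eq_true_eq, not_or]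
  omega

theorem LH (hUV : UV_stmt) (hUH : UH_stmt) : LH_stmt := by
  rintro c k g ℓ S ⟨l, u₀, ⟨h1, h2, h3, h4⟩, hodd, rfl⟩ W u v huv hu hv
  by_contra hcon
  push Not at hcon
  have hl : ∀ w ∈ l, ℓ < sd g w ∧ sd g w < 3 * ℓ := fun w hw => ⟨(h4 w hw).1, (h4 w hw).2.1⟩
  -- from `u` to `v`
  have e1 : upCross u l % 2 = upCross v l % 2 := by
    refine LH_par hUV hUH h1 h2 h3 (W := {z | Con W u z}) ?_ huv.cluster
    intro z hz hzl
    exact hcon z hzl hz
  -- from `g` to `u`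
  have e2 : upCross u l % 2 = upCross g l % 2 := by
    have hbox : ∀ z ∈ box g ℓ, z ∉ l := by
      intro z hz hzl
      have := (hl z hzl).1
      simp only [box, Set.mem_ofPred_eq] at hz
      omega
    have hcv : Con (box g ℓ) u (u.1, g.2) := by
      rcases le_total u.2 g.2 with h | h
      · refine con_vert u.1 u.2 g.2 h fun t ht ht' => ?_
        simp only [box, sd, Set.mem_ofPred_eq] at hu ⊢
        omega
      · refine (con_vert u.1 g.2 u.2 h fun t ht ht' => ?_).symm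
        simp only [box, sd, Set.mem_ofPred_eq] at hu ⊢
        omega
    have hch : Con (box g ℓ) (u.1, g.2) g := by
      rcases le_total u.1 g.1 with h | h
      · refine con_horiz g.2 u.1 g.1 h fun t ht ht' => ?_
        simp only [box, sd, Set.mem_ofPred_eq] at hu ⊢
        omega
      · refine (con_horiz g.2 g.1 u.1 h fun t ht ht' => ?_).symm
        simp only [box, sd, Set.mem_ofPred_eq] at hu ⊢
        omega
    exact LH_par hUV hUH h1 h2 h3 hbox (hcv.trans hch)
  -- at `v`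
  have e3 : upCross v l % 2 = 0 := by
    have hlow : ∀ z : V, z.2 ≤ g.2 - 3 * ℓ → z ∉ l := by
      intro z hz hzl
      have := (hl z hzl).2
      simp only [sd] at this
      omega
    have hright : ∀ z : V, g.1 + 3 * ℓ ≤ z.1 → upCross z l = 0 := by
      intro z hz
      refine LH_zero fun w hw h => ?_
      have := (hl w hw).2
      simp only [sd] at this
      omega
    by_cases c1 : g.1 + 3 * ℓ ≤ v.1
    · rw [hright v c1]
    · by_cases c2 : v.1 ≤ g.1 - 3 * ℓ
      · rw [LH_zero fun w hw h => ?_]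
        have := (hl w hw).2
        simp only [sd] at this
        omega
      · by_cases c3 : g.2 + 3 * ℓ ≤ v.2
        · rw [LH_zero fun w hw h => ?_]
          have := (hl w hw).2
          simp only [sd] at this
          omega
        · have c4 : v.2 ≤ g.2 - 3 * ℓ := by
            simp only [sd] at hv
            omega
          have hc : Con {z | z ∉ l} v (g.1 + 3 * ℓ, v.2) :=
            con_horiz v.2 v.1 (g.1 + 3 * ℓ) (by omega) fun t _ _ => hlow (t, v.2) c4
          rw [LH_par hUV hUH h1 h2 h3 (fun z hz => hz) hc, hright _ le_rfl]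
  obtain ⟨q, hq⟩ := hodd
  omega

/-- A loop meets the straight segments from the centre to distance `3 ℓ`; it is connected. -/
theorem LN (hLH : LH_stmt) : LN_stmt := by
  rintro c k g g' ℓ S S' hg hS hS'
  have hcon : ∀ z ∈ S', ∀ z' ∈ S', Con S' z z' := by
    obtain ⟨l, u₀, hp, -, rfl⟩ := hS'
    have hp' := hp.self
    intro z hz z' hz'
    exact (hp'.con_mem z hz).symm.trans (hp'.con_mem z' hz')
  have hsub : ∀ z ∈ S', ℓ < sd g' z ∧ sd g' z < 3 * ℓ := by
    obtain ⟨l, u₀, ⟨-, -, -, h4⟩, -, rfl⟩ := hS'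
    exact fun z hz => ⟨(h4 z hz).1, (h4 z hz).2.1⟩
  -- it suffices to find a point inside and a point outside
  have key : ∀ z z', z ∈ S' → z' ∈ S' → sd g z ≤ ℓ → 3 * ℓ ≤ sd g z' → (S ∩ S').Nonempty := by
    intro z z' hz hz' h1 h2
    obtain ⟨w, hw, hc⟩ := hLH c k g ℓ S hS S' z z' (hcon z hz z' hz') h1 h2
    exact ⟨w, hw, hc.mem_right⟩
  -- horizontal and vertical half lines
  have hr : ∃ t : ℤ, ℓ < t ∧ t < 3 * ℓ ∧ (g'.1 + t, g'.2) ∈ S' := by
    obtain ⟨z, hz, hc⟩ := hLH c k g' ℓ S' hS' {w | w.2 = g'.2 ∧ g'.1 ≤ w.1} g'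
      (g'.1 + 3 * ℓ, g'.2) (con_horiz g'.2 g'.1 (g'.1 + 3 * ℓ) (by omega) fun t h _ => ⟨rfl, h⟩)
      (by simp [sd]) (by simp only [sd]; omega)
    obtain ⟨h1, h2⟩ := hc.mem_right
    have h3 := hsub z hz
    simp only [sd] at h3
    refine ⟨z.1 - g'.1, by omega, by omega, ?_⟩
    have : (g'.1 + (z.1 - g'.1), g'.2) = z := Prod.ext (by simp) h1.symm
    rw [this]
    exact hz
  have hl : ∃ t : ℤ, ℓ < t ∧ t < 3 * ℓ ∧ (g'.1 - t, g'.2) ∈ S' := by
    obtain ⟨z, hz, hc⟩ := hLH c k g' ℓ S' hS' {w | w.2 = g'.2 ∧ w.1 ≤ g'.1} g'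
      (g'.1 - 3 * ℓ, g'.2)
      (con_horiz (W := {w | w.2 = g'.2 ∧ w.1 ≤ g'.1}) g'.2 (g'.1 - 3 * ℓ) g'.1 (by omega)
        fun t _ h => ⟨rfl, h⟩).symm
      (by simp [sd]) (by simp only [sd]; omega)
    obtain ⟨h1, h2⟩ := hc.mem_right
    have h3 := hsub z hz
    simp only [sd] at h3
    refine ⟨g'.1 - z.1, by omega, by omega, ?_⟩
    have : (g'.1 - (g'.1 - z.1), g'.2) = z := Prod.ext (by simp) h1.symm
    rw [this]
    exact hz
  have hu : ∃ t : ℤ, ℓ < t ∧ t < 3 * ℓ ∧ (g'.1, g'.2 + t) ∈ S' := by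
    obtain ⟨z, hz, hc⟩ := hLH c k g' ℓ S' hS' {w | w.1 = g'.1 ∧ g'.2 ≤ w.2} g'
      (g'.1, g'.2 + 3 * ℓ) (con_vert g'.1 g'.2 (g'.2 + 3 * ℓ) (by omega) fun t h _ => ⟨rfl, h⟩)
      (by simp [sd]) (by simp only [sd]; omega)
    obtain ⟨h1, h2⟩ := hc.mem_right
    have h3 := hsub z hz
    simp only [sd] at h3
    refine ⟨z.2 - g'.2, by omega, by omega, ?_⟩
    have : (g'.1, g'.2 + (z.2 - g'.2)) = z := Prod.ext h1.symm (by simp)
    rw [this]
    exact hz
  have hd : ∃ t : ℤ, ℓ < t ∧ t < 3 * ℓ ∧ (g'.1, g'.2 - t) ∈ S' := by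
    obtain ⟨z, hz, hc⟩ := hLH c k g' ℓ S' hS' {w | w.1 = g'.1 ∧ w.2 ≤ g'.2} g'
      (g'.1, g'.2 - 3 * ℓ)
      (con_vert (W := {w | w.1 = g'.1 ∧ w.2 ≤ g'.2}) g'.1 (g'.2 - 3 * ℓ) g'.2 (by omega)
        fun t _ h => ⟨rfl, h⟩).symm
      (by simp [sd]) (by simp only [sd]; omega)
    obtain ⟨h1, h2⟩ := hc.mem_right
    have h3 := hsub z hz
    simp only [sd] at h3
    refine ⟨g'.2 - z.2, by omega, by omega, ?_⟩
    have : (g'.1, g'.2 - (g'.2 - z.2)) = z := Prod.ext h1.symm (by simp)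
    rw [this]
    exact hz
  obtain ⟨tr, hr1, hr2, hr3⟩ := hr
  obtain ⟨tl, hl1, hl2, hl3⟩ := hl
  obtain ⟨tu, hu1, hu2, hu3⟩ := hu
  obtain ⟨td, hd1, hd2, hd3⟩ := hd
  rcases hg with rfl | rfl | rfl | rfl
  · exact key _ _ hl3 hr3 (by simp only [sd]; omega) (by simp only [sd]; omega)
  · exact key _ _ hr3 hl3 (by simp only [sd]; omega) (by simp only [sd]; omega)
  · exact key _ _ hd3 hu3 (by simp only [sd]; omega) (by simp only [sd]; omega)
  · exact key _ _ hu3 hd3 (by simp only [sd]; omega) (by simp only [sd]; omega)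

end DP
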